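import Pool.Agent.TH49.Spl.Defs

set_option autoImplicit false

/-!
# Splaying on a tree composed of two trees and a separator
-/

namespace Pool.Agent.Q102.SP

open Pool.Agent.H581R2.Splay Pool.Agent.TH49.Spl

/-- `v₁, u₁, v₂, u₂, …` -/
def mix : List ℕ → List ℕ → List ℕ
  | v :: V, u :: U => v :: u :: mix V U
  | _, _ => []

lemma mix_length : ∀ (V U : List ℕ), V.length = U.length → (mix V U).length = 2 * U.length := by
  intro V
  induction V with
  | nil => intro U h; simp at h; simp [mix, ← h]
  | cons v V ih =>
    intro U h
    cases U with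
    | nil => simp at h
    | cons u U =>
      simp only [List.length_cons] at h ⊢
      simp only [mix, List.length_cons]
      rw [ih U (by omega)]
      ring

lemma mem_mix {x : ℕ} : ∀ (V U : List ℕ), x ∈ mix V U → x ∈ V ∨ x ∈ U := by
  intro V
  induction V with
  | nil => intro U h; simp [mix] at h
  | cons v V ih =>
    intro U h
    cases U with
    | nil => simp [mix] at h
    | cons u U =>
      simp only [mix, List.mem_cons] at h ⊢
      rcases h with h | h | h
      · exact Or.inl (Or.inl h)
      · exact Or.inr (Or.inl h)
      · rcases ih U h with h | h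
        · exact Or.inl (Or.inr h)
        · exact Or.inr (Or.inr h)

lemma loc_app (x : ℕ) : ∀ (t : Tr) (fs : List Fr),
    locate x t fs = ((locate x t []).1 ++ fs, (locate x t []).2.1, (locate x t []).2.2) := by
  intro t
  induction t with
  | nil => intro fs; simp [locate]
  | node a l r ihl ihr =>
    intro fs
    simp only [locate]
    split_ifs with h1 h2
    · simp
    · rw [ihl (Fr.inL a r :: fs), ihl [Fr.inL a r]]
      simp
    · rw [ihr (Fr.inR a l :: fs), ihr [Fr.inR a l]]
      simp

lemma loc_len (x : ℕ) : ∀ t : Tr, (locate x t []).1.length = dep x t := by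
  intro t
  induction t with
  | nil => simp [locate, dep]
  | node a l r ihl ihr =>
    simp only [locate, dep]
    split_ifs with h1 h2
    · rfl
    · rw [loc_app, List.length_append, ihl]; rfl
    · rw [loc_app, List.length_append, ihr]; rfl

lemma climb_even (x : ℕ) : ∀ (n : ℕ) (fs : List Fr), fs.length = 2 * n → ∀ (l r : Tr),
    ∃ l' r' : Tr, climb x fs l r = Tr.node x l' r' ∧ ∀ gs, climb x (fs ++ gs) l r = climb x gs l' r' := by
  intro n
  induction n with
  | zero =>
    intro fs h l r
    have : fs = [] := List.length_eq_zero_iff.1 (by omega)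
    subst this
    exact ⟨l, r, by simp [climb], fun gs => rfl⟩
  | succ n ih =>
    intro fs h l r
    match fs, h with
    | [], h => simp at h
    | [f], h => simp only [List.length_singleton] at h; omega
    | f :: g :: fs, h =>
      simp only [List.length_cons] at h
      cases f <;> cases g <;> simp only [List.cons_append, climb] <;> exact ih fs (by omega) _ _

/-- the right request -/
lemma splay_right {x y s : ℕ} {A C TR : Tr} (hy : y < x) (hs : s < x) (he : Even (dep x TR)) :
    ∃ l r : Tr, splay x TR = Tr.node x l r ∧
      splay x (Tr.node y A (Tr.node s C TR)) = Tr.node x (Tr.node s (Tr.node y A C) l) r ∧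
      dep x (Tr.node y A (Tr.node s C TR)) = dep x TR + 2 := by
  obtain ⟨n, hn⟩ := he
  obtain ⟨l, r, h1, h2⟩ := climb_even x n (locate x TR []).1 (by rw [loc_len]; omega)
    (locate x TR []).2.1 (locate x TR []).2.2
  refine ⟨l, r, h1, ?_, ?_⟩
  · have hloc : locate x (Tr.node y A (Tr.node s C TR)) [] =
        ((locate x TR []).1 ++ [Fr.inR s C, Fr.inR y A], (locate x TR []).2.1, (locate x TR []).2.2) := by
      rw [locate, if_neg (by omega), if_neg (by omega), locate, if_neg (by omega),
        if_neg (by omega), loc_app]
    unfold splay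
    rw [hloc]
    simp only
    rw [h2]
    simp [climb]
  · rw [dep, if_neg (by omega), if_neg (by omega), dep, if_neg (by omega), if_neg (by omega)]

/-- the left request -/
lemma splay_left {x y s : ℕ} {A C TL : Tr} (hy : x < y) (hs : x < s) (he : Even (dep x TL)) :
    ∃ l r : Tr, splay x TL = Tr.node x l r ∧
      splay x (Tr.node y (Tr.node s TL A) C) = Tr.node x l (Tr.node s r (Tr.node y A C)) ∧
      dep x (Tr.node y (Tr.node s TL A) C) = dep x TL + 2 := by
  obtain ⟨n, hn⟩ := he
  obtain ⟨l, r, h1, h2⟩ := climb_even x n (locate x TL []).1 (by rw [loc_len]; omega)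
    (locate x TL []).2.1 (locate x TL []).2.2
  refine ⟨l, r, h1, ?_, ?_⟩
  · have hloc : locate x (Tr.node y (Tr.node s TL A) C) [] =
        ((locate x TL []).1 ++ [Fr.inL s A, Fr.inL y C], (locate x TL []).2.1, (locate x TL []).2.2) := by
      rw [locate, if_neg (by omega), if_pos (by omega), locate, if_neg (by omega),
        if_pos (by omega), loc_app]
    unfold splay
    rw [hloc]
    simp only
    rw [h2]
    simp [climb]
  · rw [dep, if_neg (by omega), if_pos (by omega), dep, if_neg (by omega), if_pos (by omega)]

/-- all requests happen at even depths -/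
def EvenRun : Tr → List ℕ → Prop
  | _, [] => True
  | T, x :: X => Even (dep x T) ∧ EvenRun (splay x T) X

lemma run_mix (s : ℕ) : ∀ (V U : List ℕ) (y : ℕ) (A C TR : Tr), V.length = U.length → y < s →
    (∀ u ∈ U, u < s) → (∀ v ∈ V, s < v) → EvenRun (Tr.node y A C) U → EvenRun TR V →
    costSplay (Tr.node y A (Tr.node s C TR)) (mix V U) =
      costSplay (Tr.node y A C) U + costSplay TR V + 4 * U.length ∧
    EvenRun (Tr.node y A (Tr.node s C TR)) (mix V U) := by
  intro V
  induction V with
  | nil =>
    intro U y A C TR hl _ _ _ _ _
    have : U = [] := List.length_eq_zero_iff.1 (by simpa using hl.symm)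
    subst this
    simp [mix, costSplay, EvenRun]
  | cons v V ih =>
    intro U y A C TR hl hy hU hV h1 h2
    cases U with
    | nil => simp at hl
    | cons u U =>
      simp only [List.length_cons] at hl
      have hv : s < v := hV v (by simp)
      have hu : u < s := hU u (by simp)
      simp only [EvenRun] at h1 h2
      obtain ⟨l, r, a1, a2, a3⟩ := splay_right (A := A) (C := C) (TR := TR) (lt_trans hy hv) hv h2.1
      obtain ⟨l', r', b1, b2, b3⟩ := splay_left (A := l) (C := r) (TL := Tr.node y A C)
        (lt_trans hu hv) hu h1.1
      obtain ⟨i1, i2⟩ := ih U u l' r' (Tr.node v l r) (by omega) hu (fun x hx => hU x (by simp [hx]))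
        (fun x hx => hV x (by simp [hx])) (by rw [← b1]; exact h1.2) (by rw [← a1]; exact h2.2)
      constructor
      · simp only [mix, costSplay, List.length_cons]
        rw [a2, b2, i1, a3, b3, b1, a1]
        ring
      · simp only [mix, EvenRun]
        rw [a2, b2, a3, b3]
        refine ⟨?_, ?_, i2⟩
        · exact h2.1.add (by decide)
        · exact h1.1.add (by decide)

/-- Perfectly alternating request sequences `X` for a reference tree, together with the initial
search tree `T` and the total number `d` of alternations. The keys of the leaves of the reference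
tree are requested, the requests of the two sides of an internal node `s` alternate. -/
inductive Alternating : Tr → List ℕ → ℕ → Prop
  | single (k N : ℕ) : Alternating (Tr.node k Tr.nil Tr.nil) (List.replicate N k) 0
  | join (s y : ℕ) (A C TR : Tr) (U V : List ℕ) (dU dV : ℕ) :
      Alternating (Tr.node y A C) U dU → Alternating TR V dV → V.length = U.length →
      (∀ k ∈ keys (Tr.node y A C), k < s) → (∀ k ∈ keys TR, s < k) →
      Alternating (Tr.node y A (Tr.node s C TR)) (mix V U) (dU + dV + 2 * U.length)

lemma Alternating.mem {T : Tr} {X : List ℕ} {d : ℕ} (h : Alternating T X d) : ∀ x ∈ X, x ∈ keys T := by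
  induction h with
  | single k N =>
    intro x hx
    rw [List.eq_of_mem_replicate hx]
    simp [keys]
  | join s y A C TR U V dU dV _ _ _ _ _ ih1 ih2 =>
    intro x hx
    rcases mem_mix V U hx with h | h
    · have := ih2 x h
      simp [keys, this]
    · have := ih1 x h
      simp only [keys, List.mem_append, List.mem_cons] at this ⊢
      tauto

lemma Alternating.bst {T : Tr} {X : List ℕ} {d : ℕ} (h : Alternating T X d) : IsBST T := by
  induction h with
  | single k N => simp [IsBST, keys]
  | join s y A C TR U V dU dV _ _ _ hL hR ih1 ih2 =>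
    unfold IsBST at ih1 ih2 ⊢
    have e : keys (Tr.node y A (Tr.node s C TR)) = keys (Tr.node y A C) ++ s :: keys TR := by
      simp [keys]
    rw [e, List.pairwise_append, List.pairwise_cons]
    refine ⟨ih1, ⟨hR, ih2⟩, ?_⟩
    intro a ha b hb
    have h1 := hL a ha
    rcases List.mem_cons.1 hb with rfl | hb
    · exact h1
    · exact lt_trans h1 (hR b hb)

lemma cost_replicate (k : ℕ) : ∀ N : ℕ, costSplay (Tr.node k Tr.nil Tr.nil) (List.replicate N k) = N ∧
    EvenRun (Tr.node k Tr.nil Tr.nil) (List.replicate N k) := by
  intro N
  have h1 : splay k (Tr.node k Tr.nil Tr.nil) = Tr.node k Tr.nil Tr.nil := by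
    simp [splay, locate, climb]
  induction N with
  | zero => simp [costSplay, EvenRun]
  | succ N ih =>
    rw [List.replicate_succ]
    simp only [costSplay, EvenRun]
    rw [h1]
    refine ⟨?_, ?_, ih.2⟩
    · rw [ih.1]; simp [dep]; ring
    · simp [dep]

/-- the exact cost of splaying -/
theorem Alternating.cost {T : Tr} {X : List ℕ} {d : ℕ} (h : Alternating T X d) :
    costSplay T X = X.length + 2 * d ∧ EvenRun T X := by
  induction h with
  | single k N =>
    have := cost_replicate k N
    exact ⟨by rw [this.1]; simp, this.2⟩
  | join s y A C TR U V dU dV h1 h2 hl hL hR ih1 ih2 =>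
    have hy : y < s := hL y (by simp [keys])
    obtain ⟨r1, r2⟩ := run_mix s V U y A C TR hl hy (fun u hu => hL u (h1.mem u hu))
      (fun v hv => hR v (h2.mem v hv)) ih1.2 ih2.2
    refine ⟨?_, r2⟩
    rw [r1, ih1.1, ih2.1, mix_length V U hl, hl]
    ring

end Pool.Agent.Q102.SP
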