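import Pool.Agent.Q102.SP.Low

set_option autoImplicit false

/-!
# The self-similar family: splaying costs `13/4` times the optimum
-/

namespace Pool.Agent.Q102.SP

open Pool.Agent.H581R2.Splay Pool.Agent.TH49.Spl

/-! ### All search trees with the same keys are connected by rotations -/

lemma rot_symm {T T' : Tr} {z : ℕ} (h : Rot T T' z) : ∃ z', Rot T' T z' := by
  induction h with
  | right a b A B C => exact ⟨_, Rot.left a b A B C⟩
  | left a b A B C => exact ⟨_, Rot.right a b A B C⟩
  | inl a L L' R s _ ih => obtain ⟨z, hz⟩ := ih; exact ⟨z, Rot.inl a L' L R z hz⟩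
  | inr a L R R' s _ ih => obtain ⟨z, hz⟩ := ih; exact ⟨z, Rot.inr a L R' R z hz⟩

lemma rotN_symm {e : ℕ} {T T' : Tr} (h : RotN e T T') : RotN e T' T := by
  induction h with
  | refl T => exact RotN.refl T
  | step e z T T' T'' h1 _ ih =>
    obtain ⟨z', hz'⟩ := rot_symm h1
    exact rotN_trans ih (rotN_one hz')

/-- the path to the right -/
def spine : List ℕ → Tr
  | [] => Tr.nil
  | a :: l => Tr.node a Tr.nil (spine l)

lemma len_keys : ∀ t : Tr, (keys t).length = size t := by
  intro t
  induction t with
  | nil => rfl
  | node a l r ihl ihr => simp only [keys, size, List.length_append, List.length_cons]; omega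

lemma conn_spine : ∀ (n : ℕ) (t : Tr), size t = n → ∃ e, RotN e t (spine (keys t)) := by
  intro n
  induction n using Nat.strong_induction_on with
  | _ n ih =>
    intro t ht
    cases t with
    | nil => exact ⟨0, RotN.refl _⟩
    | node a l r =>
      simp only [size] at ht
      obtain ⟨e1, h1⟩ := ih (size l) (by omega) l rfl
      cases hk : keys l with
      | nil =>
        rw [hk] at h1
        obtain ⟨e2, h2⟩ := ih (size r) (by omega) r rfl
        refine ⟨e1 + e2, ?_⟩
        have e : keys (Tr.node a l r) = a :: keys r := by simp [keys, hk]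
        rw [e]
        exact rotN_trans (rotN_inl a r h1) (rotN_inr a Tr.nil h2)
      | cons b ks =>
        rw [hk] at h1
        have hsz : size l = ks.length + 1 := by
          rw [← len_keys, hk]; rfl
        have hsp : ∀ L : List ℕ, size (spine L) = L.length := by
          intro L
          induction L with
          | nil => rfl
          | cons c L ih => simp only [spine, size, List.length_cons, ih]; omega
        have hkp : ∀ L : List ℕ, keys (spine L) = L := by
          intro L
          induction L with
          | nil => rfl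
          | cons c L ih => simp [spine, keys, ih]
        obtain ⟨e2, h2⟩ := ih (size (Tr.node a (spine ks) r)) (by
          simp only [size, hsp]; omega) _ rfl
        refine ⟨e1 + 1 + e2, ?_⟩
        have e : keys (Tr.node a l r) = b :: keys (Tr.node a (spine ks) r) := by
          simp [keys, hk, hkp]
        rw [e]
        have s1 : RotN e1 (Tr.node a l r) (Tr.node a (Tr.node b Tr.nil (spine ks)) r) :=
          rotN_inl a r h1
        have s2 : RotN 1 (Tr.node a (Tr.node b Tr.nil (spine ks)) r)
            (Tr.node b Tr.nil (Tr.node a (spine ks) r)) := rotN_one (Rot.right a b _ _ _)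
        have s3 : RotN e2 (Tr.node b Tr.nil (Tr.node a (spine ks) r))
            (Tr.node b Tr.nil (spine (keys (Tr.node a (spine ks) r)))) := rotN_inr b Tr.nil h2
        exact rotN_trans (rotN_trans s1 s2) s3

lemma conn {T O : Tr} (h : keys T = keys O) : ∃ e, RotN e T O := by
  obtain ⟨e1, h1⟩ := conn_spine _ T rfl
  obtain ⟨e2, h2⟩ := conn_spine _ O rfl
  rw [← h] at h2
  exact ⟨e1 + e2, rotN_trans h1 (rotN_symm h2)⟩

/-! ### Static trees -/

/-- the cost of the requests `X` in the static tree `O` -/
def stat (O : Tr) (X : List ℕ) : ℕ := (X.map fun x => 1 + dep x O).sum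

lemma exec_stat (O : Tr) : ∀ X : List ℕ, Exec O X (stat O X) := by
  intro X
  induction X with
  | nil => exact Exec.nil O
  | cons x X ih =>
    have := Exec.cons O O x X 0 (stat O X) (RotN.refl O) ih
    simpa [stat] using this

lemma exec_from {T O : Tr} (h : keys T = keys O) : ∃ K : ℕ, ∀ X : List ℕ, (∀ x ∈ X, x ∈ keys T) →
    ∃ c, Exec T X c ∧ c ≤ K + stat O X := by
  obtain ⟨e, he⟩ := conn h
  refine ⟨e + ((keys T).map fun x => dep x T).sum, ?_⟩
  intro X hX
  cases X with
  | nil => exact ⟨0, Exec.nil T, by omega⟩
  | cons x X =>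
    refine ⟨1 + e + dep x T + stat O X, Exec.cons T O x X e _ he (exec_stat O X), ?_⟩
    have h1 : dep x T ≤ ((keys T).map fun x => dep x T).sum :=
      List.single_le_sum (by simp) _ (List.mem_map_of_mem (hX x (by simp)))
    simp only [stat, List.map_cons, List.sum_cons]
    omega

lemma stat_mix (O : Tr) : ∀ (V U : List ℕ), V.length = U.length →
    stat O (mix V U) = stat O V + stat O U := by
  intro V
  induction V with
  | nil =>
    intro U h
    have : U = [] := List.length_eq_zero_iff.1 (by simpa using h.symm)
    subst this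
    simp [mix, stat]
  | cons v V ih =>
    intro U h
    cases U with
    | nil => simp at h
    | cons u U =>
      simp only [List.length_cons] at h
      have := ih U (by omega)
      simp only [stat, mix, List.map_cons, List.sum_cons] at this ⊢
      omega

/-- insert a key at the right end -/
def addMax (s : ℕ) : Tr → Tr
  | Tr.nil => Tr.node s Tr.nil Tr.nil
  | Tr.node a l r => Tr.node a l (addMax s r)

/-- insert a key at the left end -/
def addMin (s : ℕ) : Tr → Tr
  | Tr.nil => Tr.node s Tr.nil Tr.nil
  | Tr.node a l r => Tr.node a (addMin s l) r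

lemma keys_addMax (s : ℕ) : ∀ t : Tr, keys (addMax s t) = keys t ++ [s] := by
  intro t
  induction t with
  | nil => rfl
  | node a l r _ ihr => simp [addMax, keys, ihr]

lemma keys_addMin (s : ℕ) : ∀ t : Tr, keys (addMin s t) = s :: keys t := by
  intro t
  induction t with
  | nil => rfl
  | node a l r ihl _ => simp [addMin, keys, ihl]

lemma dep_addMax {s x : ℕ} : ∀ t : Tr, IsBST t → x ∈ keys t → dep x (addMax s t) = dep x t := by
  intro t
  induction t with
  | nil => intro _ h; simp [keys] at h
  | node a l r ihl ihr =>
    intro hb hx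
    obtain ⟨hl, hr, h1, h2⟩ := bst_parts hb
    simp only [addMax, dep]
    split_ifs with e1 e2
    · rfl
    · rfl
    · have : x ∈ keys r := by
        simp only [keys, List.mem_append, List.mem_cons] at hx
        rcases hx with h | h | h
        · have := h1 x h; omega
        · exact absurd h e1
        · exact h
      rw [ihr hr this]

lemma dep_addMin {s x : ℕ} : ∀ t : Tr, IsBST t → x ∈ keys t → dep x (addMin s t) = dep x t := by
  intro t
  induction t with
  | nil => intro _ h; simp [keys] at h
  | node a l r ihl ihr =>
    intro hb hx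
    obtain ⟨hl, hr, h1, h2⟩ := bst_parts hb
    simp only [addMin, dep]
    split_ifs with e1 e2
    · rfl
    · have : x ∈ keys l := by
        simp only [keys, List.mem_append, List.mem_cons] at hx
        rcases hx with h | h | h
        · exact h
        · exact absurd h e1
        · have := h2 x h; omega
      rw [ihl hl this]
    · rfl

/-! ### The family -/

/-- the number of keys -/
def nn : ℕ → ℕ
  | 0 => 1
  | j + 1 => 2 * nn j + 3

/-- composition with a separator, the last request being on the left -/
def cmb (s : ℕ) : Tr → Tr → Tr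
  | Tr.nil, _ => Tr.nil
  | Tr.node y A C, TR => Tr.node y A (Tr.node s C TR)

/-- the initial tree -/
def TT : ℕ → ℕ → Tr
  | 0, o => Tr.node o Tr.nil Tr.nil
  | j + 1, o => cmb (o + nn j) (TT j o)
      (cmb (o + nn j + 2) (Tr.node (o + nn j + 1) Tr.nil Tr.nil) (TT j (o + nn j + 3)))

/-- the requests -/
def XX : ℕ → ℕ → ℕ → List ℕ
  | 0, o, N => List.replicate N o
  | j + 1, o, N => mix (mix (XX j (o + nn j + 3) N) (List.replicate (4 ^ j * N) (o + nn j + 1)))
      (XX j o (2 * N))

/-- the static tree -/
def OO : ℕ → ℕ → Tr
  | 0, o => Tr.node o Tr.nil Tr.nil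
  | j + 1, o => Tr.node (o + nn j + 1) (addMax (o + nn j) (OO j o))
      (addMin (o + nn j + 2) (OO j (o + nn j + 3)))

lemma XX_len : ∀ (j o N : ℕ), (XX j o N).length = 4 ^ j * N := by
  intro j
  induction j with
  | zero => intro o N; simp [XX]
  | succ j ih =>
    intro o N
    have h1 : (mix (XX j (o + nn j + 3) N) (List.replicate (4 ^ j * N) (o + nn j + 1))).length =
        2 * (4 ^ j * N) := by
      rw [mix_length _ _ (by rw [ih, List.length_replicate]), List.length_replicate]
    simp only [XX]
    rw [mix_length _ _ (by rw [h1, ih]; ring), ih]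
    ring

lemma cmb_keys (s : ℕ) (TL TR : Tr) (h : TL ≠ Tr.nil) : keys (cmb s TL TR) = keys TL ++ s :: keys TR := by
  cases TL with
  | nil => exact absurd rfl h
  | node y A C => simp [cmb, keys]

lemma cmb_ne (s : ℕ) (TL TR : Tr) (h : TL ≠ Tr.nil) : cmb s TL TR ≠ Tr.nil := by
  cases TL with
  | nil => exact absurd rfl h
  | node y A C => simp [cmb]

lemma TT_ne : ∀ j o : ℕ, TT j o ≠ Tr.nil := by
  intro j
  induction j with
  | zero => intro o; simp [TT]
  | succ j ih => intro o; exact cmb_ne _ _ _ (ih o)

lemma TT_range : ∀ (j o k : ℕ), k ∈ keys (TT j o) → o ≤ k ∧ k < o + nn j := by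
  intro j
  induction j with
  | zero => intro o k h; simp [TT, keys] at h; simp only [nn]; omega
  | succ j ih =>
    intro o k h
    simp only [TT] at h
    rw [cmb_keys _ _ _ (TT_ne j o), List.mem_append, List.mem_cons,
      cmb_keys _ _ _ (by simp), List.mem_append, List.mem_cons] at h
    simp only [nn]
    rcases h with h | h | h | h | h
    · have := ih o k h; omega
    · omega
    · simp [keys] at h; omega
    · omega
    · have := ih _ k h; omega

lemma alt_join (s : ℕ) (TL TR : Tr) (U V : List ℕ) (dU dV : ℕ) (hne : TL ≠ Tr.nil)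
    (h1 : Alternating TL U dU) (h2 : Alternating TR V dV) (hl : V.length = U.length)
    (hL : ∀ k ∈ keys TL, k < s) (hR : ∀ k ∈ keys TR, s < k) :
    Alternating (cmb s TL TR) (mix V U) (dU + dV + 2 * U.length) := by
  cases TL with
  | nil => exact absurd rfl hne
  | node y A C => exact Alternating.join s y A C TR U V dU dV h1 h2 hl hL hR

lemma TT_alt : ∀ (j o N : ℕ), ∃ d, Alternating (TT j o) (XX j o N) d ∧
    d + 6 * 3 ^ j * N = 6 * 4 ^ j * N := by
  intro j
  induction j with
  | zero => intro o N; exact ⟨0, Alternating.single o N, by ring⟩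
  | succ j ih =>
    intro o N
    obtain ⟨d1, a1, b1⟩ := ih o (2 * N)
    obtain ⟨d2, a2, b2⟩ := ih (o + nn j + 3) N
    have h1 : (mix (XX j (o + nn j + 3) N) (List.replicate (4 ^ j * N) (o + nn j + 1))).length =
        2 * (4 ^ j * N) := by
      rw [mix_length _ _ (by rw [XX_len, List.length_replicate]), List.length_replicate]
    have a3 := alt_join (o + nn j + 2) (Tr.node (o + nn j + 1) Tr.nil Tr.nil) (TT j (o + nn j + 3))
      (List.replicate (4 ^ j * N) (o + nn j + 1)) (XX j (o + nn j + 3) N) 0 d2 (by simp)
      (Alternating.single _ _) a2 (by rw [XX_len, List.length_replicate])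
      (by intro k hk; simp [keys] at hk; omega)
      (by intro k hk; have := TT_range _ _ _ hk; omega)
    have a4 := alt_join (o + nn j) (TT j o) _ (XX j o (2 * N)) _ d1 _ (TT_ne j o) a1 a3
      (by rw [h1, XX_len]; ring)
      (by intro k hk; have := TT_range _ _ _ hk; omega)
      (by
        intro k hk
        rw [cmb_keys _ _ _ (by simp), List.mem_append, List.mem_cons] at hk
        rcases hk with h | h | h
        · simp [keys] at h; omega
        · omega
        · have := TT_range _ _ _ h; omega)
    refine ⟨_, a4, ?_⟩
    rw [XX_len, List.length_replicate, pow_succ, pow_succ]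
    nlinarith

lemma OO_keys : ∀ (j o : ℕ), keys (OO j o) = keys (TT j o) := by
  intro j
  induction j with
  | zero => intro o; rfl
  | succ j ih =>
    intro o
    simp only [TT, OO]
    rw [cmb_keys _ _ _ (TT_ne j o), cmb_keys _ _ _ (by simp)]
    simp only [keys]
    rw [keys_addMax, keys_addMin, ih, ih]
    simp

lemma stat_cons_left (v : ℕ) (L R : Tr) : ∀ X : List ℕ, (∀ x ∈ X, x < v) →
    stat (Tr.node v L R) X = stat L X + X.length := by
  intro X hX
  induction X with
  | nil => rfl
  | cons x X ih =>
    have h1 := hX x (by simp)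
    have := ih (fun z hz => hX z (by simp [hz]))
    have hd : dep x (Tr.node v L R) = dep x L + 1 := by
      rw [dep, if_neg (by omega), if_pos h1]
    simp only [stat, List.map_cons, List.sum_cons, List.length_cons] at this ⊢
    rw [hd]
    omega

lemma stat_cons_right (v : ℕ) (L R : Tr) : ∀ X : List ℕ, (∀ x ∈ X, v < x) →
    stat (Tr.node v L R) X = stat R X + X.length := by
  intro X hX
  induction X with
  | nil => rfl
  | cons x X ih =>
    have h1 := hX x (by simp)
    have := ih (fun z hz => hX z (by simp [hz]))
    have hd : dep x (Tr.node v L R) = dep x R + 1 := by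
      rw [dep, if_neg (by omega), if_neg (by omega)]
    simp only [stat, List.map_cons, List.sum_cons, List.length_cons] at this ⊢
    rw [hd]
    omega

lemma stat_root (v : ℕ) (L R : Tr) (M : ℕ) : stat (Tr.node v L R) (List.replicate M v) = M := by
  induction M with
  | zero => rfl
  | succ M ih =>
    rw [List.replicate_succ]
    simp only [stat, List.map_cons, List.sum_cons] at ih ⊢
    rw [ih]
    simp only [dep, if_true]
    omega

lemma stat_congr {O O' : Tr} {X : List ℕ} (h : ∀ x ∈ X, dep x O = dep x O') : stat O X = stat O' X := by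
  unfold stat
  congr 1
  apply List.map_congr_left
  intro x hx
  rw [h x hx]

lemma OO_stat : ∀ (j o N : ℕ), stat (OO j o) (XX j o N) + 3 ^ (j + 1) * N = 4 ^ (j + 1) * N := by
  intro j
  induction j with
  | zero =>
    intro o N
    simp only [OO, XX]
    rw [stat_root]
    ring
  | succ j ih =>
    intro o N
    obtain ⟨d1, a1, -⟩ := TT_alt j o (2 * N)
    obtain ⟨d2, a2, -⟩ := TT_alt j (o + nn j + 3) N
    have hm1 := a1.mem
    have hm2 := a2.mem
    have hb1 : IsBST (OO j o) := by
      unfold IsBST; rw [OO_keys]; exact a1.bst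
    have hb2 : IsBST (OO j (o + nn j + 3)) := by
      unfold IsBST; rw [OO_keys]; exact a2.bst
    have h1 : (mix (XX j (o + nn j + 3) N) (List.replicate (4 ^ j * N) (o + nn j + 1))).length =
        2 * (4 ^ j * N) := by
      rw [mix_length _ _ (by rw [XX_len, List.length_replicate]), List.length_replicate]
    simp only [OO, XX]
    rw [stat_mix _ _ _ (by rw [h1, XX_len]; ring),
      stat_mix _ _ _ (by rw [XX_len, List.length_replicate]), stat_root,
      stat_cons_right _ _ _ _ (by
        intro x hx
        have := TT_range _ _ _ (hm2 x hx)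
        omega),
      stat_cons_left _ _ _ _ (by
        intro x hx
        have := TT_range _ _ _ (hm1 x hx)
        omega),
      stat_congr (O := addMin (o + nn j + 2) (OO j (o + nn j + 3))) (O' := OO j (o + nn j + 3))
        (fun x hx => dep_addMin _ hb2 (by rw [OO_keys]; exact hm2 x hx)),
      stat_congr (O := addMax (o + nn j) (OO j o)) (O' := OO j o)
        (fun x hx => dep_addMax _ hb1 (by rw [OO_keys]; exact hm1 x hx)),
      XX_len, XX_len]
    have e1 := ih o (2 * N)
    have e2 := ih (o + nn j + 3) N
    rw [pow_succ 4 (j + 1), pow_succ 3 (j + 1)]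
    rw [pow_succ 4 j] at e1 e2 ⊢
    nlinarith

end Pool.Agent.Q102.SP
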