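import Pool.Agent.Q102.SP.Comb

set_option autoImplicit false

/-!
# A lower bound for all executions of an alternating request sequence
-/

namespace Pool.Agent.Q102.SP

open Pool.Agent.H581R2.Splay Pool.Agent.TH49.Spl

/-- the part of the tree with the keys below `s` -/
def lo (s : ℕ) : Tr → Tr
  | Tr.nil => Tr.nil
  | Tr.node a l r => if a < s then Tr.node a l (lo s r) else lo s l

/-- the part of the tree with the keys above `s` -/
def hi (s : ℕ) : Tr → Tr
  | Tr.nil => Tr.nil
  | Tr.node a l r => if s < a then Tr.node a (hi s l) r else hi s r

/-- the key at the root is above `s` -/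
def top (s : ℕ) : Tr → Prop
  | Tr.nil => False
  | Tr.node a _ _ => s < a

lemma bst_parts {a : ℕ} {l r : Tr} (h : IsBST (Tr.node a l r)) :
    IsBST l ∧ IsBST r ∧ (∀ k ∈ keys l, k < a) ∧ (∀ k ∈ keys r, a < k) := by
  simp only [IsBST, keys] at h
  rw [List.pairwise_append, List.pairwise_cons] at h
  obtain ⟨hl, ⟨har, hr⟩, hlr⟩ := h
  exact ⟨hl, hr, fun k hk => hlr k hk a (by simp), har⟩

lemma keys_lo (s : ℕ) : ∀ t : Tr, IsBST t → keys (lo s t) = (keys t).filter (· < s) := by
  intro t
  induction t with
  | nil => intro _; simp [lo, keys]
  | node a l r ihl ihr =>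
    intro hb
    obtain ⟨hl, hr, h1, h2⟩ := bst_parts hb
    simp only [lo, keys]
    rw [List.filter_append, List.filter_cons]
    split_ifs with h3 h4 h4
    · simp only [keys]
      have e : (keys l).filter (· < s) = keys l := by
        rw [List.filter_eq_self]
        intro k hk
        have := h1 k hk
        simp only [decide_eq_true_eq]
        omega
      rw [ihr hr, e]
    · simp only [decide_eq_true_eq] at h4
      omega
    · simp only [decide_eq_true_eq] at h4
      omega
    · rw [ihl hl]
      have : (keys r).filter (· < s) = [] := by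
        rw [List.filter_eq_nil_iff]
        intro k hk
        have := h2 k hk
        simp only [decide_eq_true_eq]
        omega
      rw [this, List.append_nil]

lemma keys_hi (s : ℕ) : ∀ t : Tr, IsBST t → keys (hi s t) = (keys t).filter (s < ·) := by
  intro t
  induction t with
  | nil => intro _; simp [hi, keys]
  | node a l r ihl ihr =>
    intro hb
    obtain ⟨hl, hr, h1, h2⟩ := bst_parts hb
    simp only [hi, keys]
    rw [List.filter_append, List.filter_cons]
    split_ifs with h3 h4 h4
    · simp only [keys]
      rw [ihl hl]
      congr 2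
      symm
      rw [List.filter_eq_self]
      intro k hk
      have := h2 k hk
      simp only [decide_eq_true_eq]
      omega
    · simp only [decide_eq_true_eq] at h4
      omega
    · simp only [decide_eq_true_eq] at h4
      omega
    · rw [ihr hr]
      have : (keys l).filter (s < ·) = [] := by
        rw [List.filter_eq_nil_iff]
        intro k hk
        have := h1 k hk
        simp only [decide_eq_true_eq]
        omega
      rw [this, List.nil_append]

lemma bst_lo {s : ℕ} {t : Tr} (h : IsBST t) : IsBST (lo s t) := by
  unfold IsBST
  rw [keys_lo s t h]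
  exact h.filter _

lemma bst_hi {s : ℕ} {t : Tr} (h : IsBST t) : IsBST (hi s t) := by
  unfold IsBST
  rw [keys_hi s t h]
  exact h.filter _

lemma dep_lo_le (s x : ℕ) : ∀ t : Tr, x < s → dep x (lo s t) ≤ dep x t := by
  intro t
  induction t with
  | nil => intro _; simp [lo, dep]
  | node a l r ihl ihr =>
    intro hx
    simp only [lo]
    split_ifs with h
    · simp only [dep]
      split_ifs with h1 h2
      · exact le_rfl
      · exact le_rfl
      · have := ihr hx; omega
    · simp only [dep]
      rw [if_neg (by omega), if_pos (by omega)]
      have := ihl hx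
      omega

lemma dep_hi_le (s x : ℕ) : ∀ t : Tr, s < x → dep x (hi s t) ≤ dep x t := by
  intro t
  induction t with
  | nil => intro _; simp [hi, dep]
  | node a l r ihl ihr =>
    intro hx
    simp only [hi]
    split_ifs with h
    · simp only [dep]
      split_ifs with h1 h2
      · exact le_rfl
      · have := ihl hx; omega
      · exact le_rfl
    · simp only [dep]
      rw [if_neg (by omega), if_neg (by omega)]
      have := ihr hx
      omega

open Classical in
lemma dep_hi (s x : ℕ) (t : Tr) (hx : s < x) (ht : t ≠ Tr.nil) :
    dep x (hi s t) + (if top s t then 0 else 1) ≤ dep x t := by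
  cases t with
  | nil => exact absurd rfl ht
  | node a l r =>
    by_cases h : s < a
    · have h1 : top s (Tr.node a l r) := h
      rw [if_pos h1]
      exact dep_hi_le s x _ hx
    · have h1 : ¬ top s (Tr.node a l r) := h
      rw [if_neg h1]
      simp only [hi, dep]
      rw [if_neg h, if_neg (by omega), if_neg (by omega)]
      have := dep_hi_le s x r hx
      omega

open Classical in
lemma dep_lo (s x : ℕ) (t : Tr) (hx : x < s) :
    dep x (lo s t) + (if top s t then 1 else 0) ≤ dep x t := by
  cases t with
  | nil => simp [top, lo, dep]
  | node a l r =>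
    by_cases h : s < a
    · have h1 : top s (Tr.node a l r) := h
      rw [if_pos h1]
      simp only [lo, dep]
      rw [if_neg (by omega), if_neg (by omega), if_pos (by omega)]
      have := dep_lo_le s x l hx
      omega
    · have h1 : ¬ top s (Tr.node a l r) := h
      rw [if_neg h1]
      exact dep_lo_le s x _ hx

lemma rotN_one {T T' : Tr} {z : ℕ} (h : Rot T T' z) : RotN 1 T T' :=
  RotN.step 0 z T T' T' h (RotN.refl T')

lemma rotN_trans {e f : ℕ} {T U V : Tr} (h : RotN e T U) (g : RotN f U V) : RotN (e + f) T V := by
  induction h with
  | refl T => rwa [zero_add]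
  | step e z T T' T'' h1 _ ih =>
    have := RotN.step (e + f) z T T' V h1 (ih g)
    rwa [show e + 1 + f = e + f + 1 by ring]

lemma rotN_inl {e : ℕ} {L L' : Tr} (a : ℕ) (R : Tr) (h : RotN e L L') :
    RotN e (Tr.node a L R) (Tr.node a L' R) := by
  induction h with
  | refl T => exact RotN.refl _
  | step e z T T' T'' h1 _ ih => exact RotN.step e z _ _ _ (Rot.inl a _ _ R z h1) ih

lemma rotN_inr {e : ℕ} {R R' : Tr} (a : ℕ) (L : Tr) (h : RotN e R R') :
    RotN e (Tr.node a L R) (Tr.node a L R') := by
  induction h with
  | refl T => exact RotN.refl _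
  | step e z T T' T'' h1 _ ih => exact RotN.step e z _ _ _ (Rot.inr a L _ _ z h1) ih

lemma rot_keys {T T' : Tr} {z : ℕ} (h : Rot T T' z) : keys T' = keys T := by
  induction h with
  | right a b A B C => simp [keys]
  | left a b A B C => simp [keys]
  | inl a L L' R s _ ih => simp [keys, ih]
  | inr a L R R' s _ ih => simp [keys, ih]

lemma rotN_keys {e : ℕ} {T T' : Tr} (h : RotN e T T') : keys T' = keys T := by
  induction h with
  | refl T => rfl
  | step e z T T' T'' h1 _ ih => rw [ih, rot_keys h1]

lemma rotN_bst {e : ℕ} {T T' : Tr} (h : RotN e T T') (hb : IsBST T) : IsBST T' := by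
  unfold IsBST
  rw [rotN_keys h]
  exact hb

open Classical in
/-- one rotation -/
lemma rot_split (s : ℕ) {T T' : Tr} {z : ℕ} (h : Rot T T' z) : IsBST T →
    ∃ el eh : ℕ, RotN el (lo s T) (lo s T') ∧ RotN eh (hi s T) (hi s T') ∧
      el + eh + (if top s T ∧ ¬ top s T' then 1 else 0) ≤ 1 := by
  induction h with
  | right a b A B C =>
    intro hb
    obtain ⟨h1, h2, h3, h4⟩ := bst_parts hb
    have hba : b < a := h3 b (by simp [keys])
    rcases lt_or_ge a s with ha | ha
    · have hb' : b < s := by omega
      refine ⟨1, 0, ?_, ?_, ?_⟩
      · simp only [lo]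
        rw [if_pos ha, if_pos hb', if_pos ha]
        exact rotN_one (Rot.right a b A B (lo s C))
      · simp only [hi]
        rw [if_neg (by omega), if_neg (by omega), if_neg (by omega)]
        exact RotN.refl _
      · simp only [top]
        rw [if_neg (by omega)]
    · rcases lt_or_ge s b with hsb | hsb
      · refine ⟨0, 1, ?_, ?_, ?_⟩
        · simp only [lo]
          rw [if_neg (by omega), if_neg (by omega), if_neg (by omega)]
          exact RotN.refl _
        · have q1 : s < a := by omega
          simp only [hi, if_pos q1, if_pos hsb]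
          exact rotN_one (Rot.right a b (hi s A) B C)
        · simp only [top]
          rw [if_neg (by omega)]
      · -- `b ≤ s ≤ a`
        refine ⟨0, 0, ?_, ?_, ?_⟩
        · simp only [lo]
          rw [if_neg (show ¬ a < s by omega), if_neg (show ¬ a < s by omega)]
          exact RotN.refl _
        · have q1 : ¬ s < b := by omega
          rcases Nat.lt_or_ge s a with q2 | q2
          · simp only [hi, if_neg q1, if_pos q2]
            exact RotN.refl _
          · have q3 : ¬ s < a := by omega
            simp only [hi, if_neg q1, if_neg q3]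
            exact RotN.refl _
        · split_ifs <;> omega
  | left a b A B C =>
    intro hb
    obtain ⟨h1, h2, h3, h4⟩ := bst_parts hb
    have hba : b < a := h4 a (by simp [keys])
    rcases lt_or_ge a s with ha | ha
    · have hb' : b < s := by omega
      refine ⟨1, 0, ?_, ?_, ?_⟩
      · simp only [lo]
        rw [if_pos ha, if_pos hb', if_pos ha]
        exact rotN_one (Rot.left a b A B (lo s C))
      · simp only [hi]
        rw [if_neg (by omega), if_neg (by omega), if_neg (by omega)]
        exact RotN.refl _
      · simp only [top]
        rw [if_neg (by omega)]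
    · rcases lt_or_ge s b with hsb | hsb
      · refine ⟨0, 1, ?_, ?_, ?_⟩
        · simp only [lo]
          rw [if_neg (by omega), if_neg (by omega), if_neg (by omega)]
          exact RotN.refl _
        · have q1 : s < a := by omega
          simp only [hi, if_pos q1, if_pos hsb]
          exact rotN_one (Rot.left a b (hi s A) B C)
        · simp only [top]
          rw [if_neg (by omega)]
      · refine ⟨0, 0, ?_, ?_, ?_⟩
        · simp only [lo]
          rw [if_neg (show ¬ a < s by omega), if_neg (show ¬ a < s by omega)]
          exact RotN.refl _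
        · have q1 : ¬ s < b := by omega
          rcases Nat.lt_or_ge s a with q2 | q2
          · simp only [hi, if_neg q1, if_pos q2]
            exact RotN.refl _
          · have q3 : ¬ s < a := by omega
            simp only [hi, if_neg q1, if_neg q3]
            exact RotN.refl _
        · simp only [top]
          rw [if_neg (by omega)]
          omega
  | inl a L L' R z h ih =>
    intro hb
    obtain ⟨h1, h2, h3, h4⟩ := bst_parts hb
    obtain ⟨el, eh, i1, i2, i3⟩ := ih h1
    have htop : ¬ (top s (Tr.node a L R) ∧ ¬ top s (Tr.node a L' R)) := by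
      simp only [top]; omega
    rw [if_neg htop]
    rcases lt_trichotomy a s with ha | ha | ha
    · refine ⟨1, 0, ?_, ?_, by omega⟩
      · simp only [lo]
        rw [if_pos ha, if_pos ha]
        exact rotN_one (Rot.inl a L L' _ z h)
      · simp only [hi]
        rw [if_neg (by omega), if_neg (by omega)]
        exact RotN.refl _
    · refine ⟨el, 0, ?_, ?_, by omega⟩
      · simp only [lo]
        rw [if_neg (by omega), if_neg (by omega)]
        exact i1
      · simp only [hi]
        rw [if_neg (by omega), if_neg (by omega)]
        exact RotN.refl _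
    · refine ⟨el, eh, ?_, ?_, by omega⟩
      · simp only [lo]
        rw [if_neg (by omega), if_neg (by omega)]
        exact i1
      · simp only [hi]
        rw [if_pos (by omega), if_pos (by omega)]
        exact rotN_inl a R i2
  | inr a L R R' z h ih =>
    intro hb
    obtain ⟨h1, h2, h3, h4⟩ := bst_parts hb
    obtain ⟨el, eh, i1, i2, i3⟩ := ih h2
    have htop : ¬ (top s (Tr.node a L R) ∧ ¬ top s (Tr.node a L R')) := by
      simp only [top]; omega
    rw [if_neg htop]
    rcases lt_trichotomy a s with ha | ha | ha
    · refine ⟨el, eh, ?_, ?_, by omega⟩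
      · simp only [lo]
        rw [if_pos ha, if_pos ha]
        exact rotN_inr a L i1
      · simp only [hi]
        rw [if_neg (by omega), if_neg (by omega)]
        exact i2
    · refine ⟨0, eh, ?_, ?_, by omega⟩
      · simp only [lo]
        rw [if_neg (by omega), if_neg (by omega)]
        exact RotN.refl _
      · simp only [hi]
        rw [if_neg (by omega), if_neg (by omega)]
        exact i2
    · refine ⟨0, 1, ?_, ?_, by omega⟩
      · simp only [lo]
        rw [if_neg (by omega), if_neg (by omega)]
        exact RotN.refl _
      · simp only [hi]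
        rw [if_pos (by omega), if_pos (by omega)]
        exact rotN_one (Rot.inr a _ R R' z h)

open Classical in
/-- several rotations -/
lemma rotN_split (s : ℕ) {e : ℕ} {T T' : Tr} (h : RotN e T T') : IsBST T →
    ∃ el eh : ℕ, RotN el (lo s T) (lo s T') ∧ RotN eh (hi s T) (hi s T') ∧
      el + eh + (if top s T ∧ ¬ top s T' then 1 else 0) ≤ e := by
  induction h with
  | refl T =>
    intro _
    refine ⟨0, 0, RotN.refl _, RotN.refl _, ?_⟩
    rw [if_neg (by tauto)]
  | step e z T T' T'' h1 h2 ih =>
    intro hb
    have hb' : IsBST T' := by unfold IsBST; rw [rot_keys h1]; exact hb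
    obtain ⟨el, eh, i1, i2, i3⟩ := rot_split s h1 hb
    obtain ⟨fl, fh, j1, j2, j3⟩ := ih hb'
    refine ⟨el + fl, eh + fh, rotN_trans i1 j1, rotN_trans i2 j2, ?_⟩
    by_cases ha : top s T <;> by_cases hb : top s T' <;> by_cases hc : top s T'' <;>
      simp only [ha, hb, hc, not_true_eq_false, not_false_eq_true, and_true, and_false, true_and,
        false_and, if_true, if_false] at i3 j3 ⊢ <;> omega

open Classical in
/-- the two halves of an execution -/
lemma split (s : ℕ) : ∀ (V U : List ℕ) (O : Tr) (c : ℕ), V.length = U.length → (∀ u ∈ U, u < s) →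
    (∀ v ∈ V, s < v) → IsBST O → O ≠ Tr.nil → Exec O (mix V U) c →
    ∃ (r1 : ℕ) (O1 : Tr) (c1 c2 : ℕ), RotN r1 (lo s O) O1 ∧ Exec O1 U c1 ∧ Exec (hi s O) V c2 ∧
      r1 + c1 + c2 + U.length ≤ c := by
  intro V
  induction V with
  | nil =>
    intro U O c hl _ _ _ _ _
    have : U = [] := List.length_eq_zero_iff.1 (by simpa using hl.symm)
    subst this
    exact ⟨0, lo s O, 0, 0, RotN.refl _, Exec.nil _, Exec.nil _, by simp⟩
  | cons v V ih =>
    intro U O c hl hU hV hb hne hE
    cases U with
    | nil => simp at hl
    | cons u U =>
      simp only [List.length_cons] at hl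
      simp only [mix] at hE
      cases hE with
      | cons _ O' _ _ e1 c' hr1 hE =>
        cases hE with
        | cons _ O'' _ _ e2 c'' hr2 hE =>
          have hb' := rotN_bst hr1 hb
          have hb'' := rotN_bst hr2 hb'
          have nn : ∀ T : Tr, T ≠ Tr.nil ↔ keys T ≠ [] := by
            intro T
            cases T with
            | nil => simp [keys]
            | node a l r => simp [keys]
          have hne' : O' ≠ Tr.nil := by
            rw [nn, rotN_keys hr1, ← nn]; exact hne
          have hne'' : O'' ≠ Tr.nil := by
            rw [nn, rotN_keys hr2, ← nn]; exact hne'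
          obtain ⟨r, O1, c1, c2, k1, k2, k3, k4⟩ := ih U O'' c'' (by omega)
            (fun x hx => hU x (by simp [hx])) (fun x hx => hV x (by simp [hx])) hb'' hne'' hE
          obtain ⟨el, eh, i1, i2, i3⟩ := rotN_split s hr1 hb
          obtain ⟨fl, fh, j1, j2, j3⟩ := rotN_split s hr2 hb'
          have dv := dep_hi s v O (hV v (by simp)) hne
          have du := dep_lo s u O' (hU u (by simp))
          refine ⟨el, lo s O', 1 + (fl + r) + dep u (lo s O') + c1,
            1 + (eh + fh) + dep v (hi s O) + c2, i1,
            Exec.cons _ _ _ _ _ _ (rotN_trans j1 k1) k2,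
            Exec.cons _ _ _ _ _ _ (rotN_trans i2 j2) k3, ?_⟩
          simp only [List.length_cons]
          by_cases ha : top s O <;> by_cases hb : top s O' <;>
            simp only [ha, hb, not_true_eq_false, not_false_eq_true, and_true, and_false, true_and,
              false_and, if_true, if_false] at i3 dv du <;> omega

lemma exec_length {T : Tr} {X : List ℕ} {c : ℕ} (h : Exec T X c) : X.length ≤ c := by
  induction h with
  | nil => simp
  | cons T T' x Y e c _ _ ih => simp only [List.length_cons]; omega

/-- the lower bound for all executions -/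
theorem Alternating.low {T : Tr} {X : List ℕ} {d : ℕ} (h : Alternating T X d) :
    ∀ (O : Tr) (c : ℕ), IsBST O → (∀ k ∈ keys T, k ∈ keys O) → Exec O X c →
      2 * X.length + d ≤ 2 * c := by
  induction h with
  | single k N =>
    intro O c _ _ hE
    have := exec_length hE
    omega
  | join s y A C TR U V dU dV h1 h2 hl hL hR ih1 ih2 =>
    intro O c hb hk hE
    have hyO : y ∈ keys O := hk y (by simp [keys])
    have hne : O ≠ Tr.nil := by
      rintro rfl
      simp [keys] at hyO
    obtain ⟨r, O1, c1, c2, k1, k2, k3, k4⟩ := split s V U O c hl (fun u hu => hL u (h1.mem u hu))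
      (fun v hv => hR v (h2.mem v hv)) hb hne hE
    have e1 := ih1 O1 c1 (rotN_bst k1 (bst_lo hb)) (by
      intro k hkk
      rw [rotN_keys k1, keys_lo s O hb, List.mem_filter]
      refine ⟨hk k ?_, by simpa using hL k hkk⟩
      simp only [keys, List.mem_append, List.mem_cons] at hkk ⊢
      tauto) k2
    have e2 := ih2 (hi s O) c2 (bst_hi hb) (by
      intro k hkk
      rw [keys_hi s O hb, List.mem_filter]
      refine ⟨hk k ?_, by simpa using hR k hkk⟩
      simp only [keys, List.mem_append, List.mem_cons]
      tauto) k3
    rw [mix_length V U hl]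
    rw [hl] at e2
    omega

end Pool.Agent.Q102.SP
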